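import Mathlib

set_option autoImplicit false

namespace Pool.Agent.Results.MP_a5d893_al.Counterexample

/-- The principal submatrix on the increasing index sequence f. -/
abbrev principal {n k : ℕ} (A : Matrix (Fin n) (Fin n) ℝ) (f : Fin k ↪o Fin n) :
    Matrix (Fin k) (Fin k) ℝ :=
  A.submatrix f f

/-- The minor with rows on the increasing index sequence f and columns on g. -/
noncomputable abbrev minor {n k : ℕ} (A : Matrix (Fin n) (Fin n) ℝ) (f g : Fin k ↪o Fin n) : ℝ :=
  (A.submatrix f g).det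

/-- All principal minors are positive. -/
def IsPMatrix {n : ℕ} (A : Matrix (Fin n) (Fin n) ℝ) : Prop :=
  ∀ (k : ℕ) (f : Fin k ↪o Fin n), 0 < minor A f f

/-- The index sequences f and g share all but one of their k entries. -/
def AlmostPrincipal {n k : ℕ} (f g : Fin k ↪o Fin n) : Prop :=
  (Finset.univ.image f ∩ Finset.univ.image g).card + 1 = k

/-- Weak sign symmetry. -/
def IsWeaklySignSymmetric {n : ℕ} (A : Matrix (Fin n) (Fin n) ℝ) : Prop :=
  ∀ (k : ℕ) (f g : Fin k ↪o Fin n), AlmostPrincipal f g → 0 ≤ minor A f g * minor A g f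

/-- GKK matrices: weakly sign symmetric P-matrices. -/
def IsGKK {n : ℕ} (A : Matrix (Fin n) (Fin n) ℝ) : Prop :=
  IsWeaklySignSymmetric A ∧ IsPMatrix A

/-- The least real eigenvalue, an extended real, equal to plus infinity if there is none. -/
noncomputable def leastReal {k : ℕ} (M : Matrix (Fin k) (Fin k) ℝ) : EReal :=
  sInf ((fun x : ℝ => (x : EReal)) '' spectrum ℝ M)

/-- Sanity check: when there is a real eigenvalue, the least one is attained. -/
theorem leastReal_attained {k : ℕ} (M : Matrix (Fin k) (Fin k) ℝ) (h : (spectrum ℝ M).Nonempty) :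
    ∃ x ∈ spectrum ℝ M, leastReal M = (x : EReal) := by
  have hfin : ((fun x : ℝ => (x : EReal)) '' spectrum ℝ M).Finite :=
    (Matrix.finite_real_spectrum).image _
  obtain ⟨x, hx, hx2⟩ := (h.image (fun x : ℝ => (x : EReal))).csInf_mem hfin
  exact ⟨x, hx, hx2.symm⟩

/-- Eigenvalue monotonicity for principal submatrices. -/
def IsOmega {n : ℕ} (A : Matrix (Fin n) (Fin n) ℝ) : Prop :=
  ∀ (k m : ℕ) (f : Fin k ↪o Fin n) (g : Fin m ↪o Fin n), 0 < m → Set.range g ⊆ Set.range f →
    leastReal (principal A f) ≤ leastReal (principal A g) ∧ leastReal (principal A g) < ⊤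

/-- Tau-matrices. -/
def IsTau {n : ℕ} (A : Matrix (Fin n) (Fin n) ℝ) : Prop :=
  IsOmega A ∧ 0 ≤ leastReal A

/-- The normalised sum of all principal minors of order j. -/
noncomputable def coeff {n : ℕ} (A : Matrix (Fin n) (Fin n) ℝ) (j : ℕ) : ℝ :=
  (∑ f : Fin j ↪o Fin n, minor A f f) / (n.choose j : ℝ)

/-- The integer model of the counterexample. -/
def B : Matrix (Fin 4) (Fin 4) ℤ := fun i j =>
  if i = 3 then 80 else if i = j then 10 else if i < j then 9 else 0

/-- The counterexample. -/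
def A : Matrix (Fin 4) (Fin 4) ℝ :=
  !![10, 9, 9, 9; 0, 10, 9, 9; 0, 0, 10, 9; 80, 80, 80, 80]

theorem A_eq : A = B.map (Int.castRingHom ℝ) := by
  ext i j
  fin_cases i <;> fin_cases j <;> simp [A, B]

theorem minor_A {k : ℕ} (f g : Fin k ↪o Fin 4) :
    minor A f g = (((B.submatrix f g).det : ℤ) : ℝ) := by
  rw [minor, A_eq, Matrix.submatrix_map]
  exact ((Int.castRingHom ℝ).map_det _).symm

theorem pos1 : ∀ f : Fin 1 → Fin 4, StrictMono f → 0 < (B.submatrix f f).det := by
  simp only [Matrix.det_unique, Matrix.submatrix_apply]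
  decide +kernel

theorem pos2 : ∀ f : Fin 2 → Fin 4, StrictMono f → 0 < (B.submatrix f f).det := by
  simp only [Matrix.det_fin_two, Matrix.submatrix_apply]
  decide +kernel

theorem pos3 : ∀ f : Fin 3 → Fin 4, StrictMono f → 0 < (B.submatrix f f).det := by
  simp only [Matrix.det_fin_three, Matrix.submatrix_apply]
  decide +kernel

theorem pos4 : ∀ f : Fin 4 → Fin 4, StrictMono f → 0 < (B.submatrix f f).det := by
  simp only [Matrix.det_succ_row_zero, Matrix.det_fin_zero]
  decide +kernel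

theorem wss1 : ∀ f g : Fin 1 → Fin 4, StrictMono f → StrictMono g →
    0 ≤ (B.submatrix f g).det * (B.submatrix g f).det := by
  simp only [Matrix.det_unique, Matrix.submatrix_apply]
  decide +kernel

theorem wss2 : ∀ f g : Fin 2 → Fin 4, StrictMono f → StrictMono g →
    (Finset.univ.image f ∩ Finset.univ.image g).card + 1 = 2 →
    0 ≤ (B.submatrix f g).det * (B.submatrix g f).det := by
  simp only [Matrix.det_fin_two, Matrix.submatrix_apply]
  decide +kernel

theorem wss3 : ∀ f g : Fin 3 → Fin 4, StrictMono f → StrictMono g →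
    0 ≤ (B.submatrix f g).det * (B.submatrix g f).det := by
  simp only [Matrix.det_fin_three, Matrix.submatrix_apply]
  decide +kernel


theorem card_bound {k : ℕ} (f : Fin k ↪o Fin 4) : k ≤ 4 := by
  have := Fintype.card_le_of_injective f f.injective
  simpa using this

theorem A_pMatrix : IsPMatrix A := by
  intro k f
  have hk := card_bound f
  rw [minor_A]
  have : 0 < (B.submatrix f f).det := by
    interval_cases k
    · simp
    · exact pos1 f f.strictMono
    · exact pos2 f f.strictMono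
    · exact pos3 f f.strictMono
    · exact pos4 f f.strictMono
  exact_mod_cast this

theorem A_wss : IsWeaklySignSymmetric A := by
  intro k f g hfg
  have hk := card_bound f
  rw [minor_A, minor_A]
  have : 0 ≤ (B.submatrix f g).det * (B.submatrix g f).det := by
    interval_cases k
    · simp
    · exact wss1 f g f.strictMono g.strictMono
    · exact wss2 f g f.strictMono g.strictMono hfg
    · exact wss3 f g f.strictMono g.strictMono
    · exfalso
      have hf : Finset.univ.image f = (Finset.univ : Finset (Fin 4)) :=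
        Finset.image_univ_of_surjective (Finite.surjective_of_injective f.injective)
      have hg : Finset.univ.image g = (Finset.univ : Finset (Fin 4)) :=
        Finset.image_univ_of_surjective (Finite.surjective_of_injective g.injective)
      rw [AlmostPrincipal, hf, hg] at hfg
      simp at hfg
  exact_mod_cast this

theorem mem_spec {k : ℕ} (M : Matrix (Fin k) (Fin k) ℝ) (x : ℝ) :
    x ∈ spectrum ℝ M ↔ (x • (1 : Matrix (Fin k) (Fin k) ℝ) - M).det = 0 := by
  rw [spectrum.mem_iff, Algebra.algebraMap_eq_smul_one, Matrix.isUnit_iff_isUnit_det,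
    isUnit_iff_ne_zero, not_not]

/-- The principal submatrices containing the last index. -/
def G (k : ℕ) : Matrix (Fin (k + 1)) (Fin (k + 1)) ℝ := fun i j =>
  if i = Fin.last k then 80 else if i = j then 10 else if i < j then 9 else 0

/-- The principal submatrices not containing the last index. -/
def U (k : ℕ) : Matrix (Fin k) (Fin k) ℝ := fun i j =>
  if i = j then 10 else if i < j then 9 else 0

theorem A_apply (i j : Fin 4) :
    A i j = if i = 3 then 80 else if i = j then 10 else if i < j then 9 else 0 := by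
  fin_cases i <;> fin_cases j <;> simp [A]

theorem sub_G {k : ℕ} (f : Fin (k + 1) ↪o Fin 4) (h : (3 : Fin 4) ∈ Set.range f) :
    principal A f = G k := by
  obtain ⟨i0, hi0⟩ := h
  have hlast : f (Fin.last k) = 3 := by
    have h1 : f i0 ≤ f (Fin.last k) := f.monotone (Fin.le_last _)
    rw [hi0] at h1
    exact le_antisymm (Fin.le_last _) h1
  ext i j
  have e1 : (f i = 3) ↔ (i = Fin.last k) := by
    rw [← hlast]; exact f.injective.eq_iff
  simp only [principal, Matrix.submatrix_apply, A_apply, G, e1, f.injective.eq_iff,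
    OrderEmbedding.lt_iff_lt]

theorem sub_U {k : ℕ} (f : Fin k ↪o Fin 4) (h : (3 : Fin 4) ∉ Set.range f) :
    principal A f = U k := by
  ext i j
  have e1 : f i ≠ 3 := fun he => h ⟨i, he⟩
  simp only [principal, Matrix.submatrix_apply, A_apply, U, if_neg e1, f.injective.eq_iff,
    OrderEmbedding.lt_iff_lt]

/-- The characteristic function of the submatrices containing the last index. -/
def q (k : ℕ) (x : ℝ) : ℝ := x * (x - 10) ^ k - 80 * (x - 1) ^ k

theorem G3_eq (x : ℝ) : x • (1 : Matrix (Fin 4) (Fin 4) ℝ) - G 3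
    = !![x - 10, -9, -9, -9; 0, x - 10, -9, -9; 0, 0, x - 10, -9; -80, -80, -80, x - 80] := by
  ext i j
  fin_cases i <;> fin_cases j <;> simp [G, Fin.last]

theorem det_G (k : ℕ) (hk : k ≤ 3) (x : ℝ) :
    (x • (1 : Matrix (Fin (k + 1)) (Fin (k + 1)) ℝ) - G k).det = q k x := by
  interval_cases k
  · simp [G, q]
  · rw [Matrix.det_fin_two]
    simp [G, q]
    ring
  · rw [Matrix.det_fin_three]
    simp [G, q]
    ring
  · rw [G3_eq, Matrix.det_succ_row_zero]
    simp [q, Fin.sum_univ_succ, Matrix.det_fin_three, Fin.succAbove]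
    ring

theorem det_U (k : ℕ) (x : ℝ) :
    (x • (1 : Matrix (Fin k) (Fin k) ℝ) - U k).det = (x - 10) ^ k := by
  rw [Matrix.det_of_isUpperTriangular]
  · simp [U]
  · intro i j hij
    have h1 : j < i := hij
    simp only [Matrix.sub_apply, Matrix.smul_apply, Matrix.one_apply, U, if_neg h1.ne',
      if_neg (not_lt.2 h1.le)]
    simp


/-- The characteristic function up to sign. -/
def gg (k : ℕ) (x : ℝ) : ℝ := x * (10 - x) ^ k - 80 * (1 - x) ^ k

theorem q_iff (k : ℕ) (x : ℝ) : q k x = 0 ↔ gg k x = 0 := by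
  have h : q k x = (-1) ^ k * gg k x := by
    have h1 : (x - 10) ^ k = (-1) ^ k * (10 - x) ^ k := by rw [← mul_pow]; congr 1; ring
    have h2 : (x - 1) ^ k = (-1) ^ k * (1 - x) ^ k := by rw [← mul_pow]; congr 1; ring
    rw [q, gg, h1, h2]; ring
  rw [h, mul_eq_zero, or_iff_right]
  exact pow_ne_zero _ (by norm_num)

theorem gg_cont (k : ℕ) : Continuous (gg k) := by
  unfold gg; fun_prop

theorem gg_zero (k : ℕ) : gg k 0 < 0 := by
  unfold gg; simp

theorem root_pos (k : ℕ) (x : ℝ) (h : gg k x = 0) : 0 < x := by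
  by_contra hx
  push Not at hx
  have h1 : x * (10 - x) ^ k ≤ 0 := mul_nonpos_of_nonpos_of_nonneg hx (by
    apply pow_nonneg; linarith)
  have h2 : 0 < (1 - x) ^ k := by apply pow_pos; linarith
  unfold gg at h
  linarith

theorem exists_root_lt (k : ℕ) (b : ℝ) (hb : 0 < b) (h : 0 < gg k b) :
    ∃ y, y ≤ b ∧ gg k y = 0 := by
  have h0 := gg_zero k
  obtain ⟨y, hy, hy2⟩ := intermediate_value_Icc hb.le (gg_cont k).continuousOn
    (show (0 : ℝ) ∈ Set.Icc (gg k 0) (gg k b) from ⟨h0.le, h.le⟩)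
  exact ⟨y, hy.2, hy2⟩

theorem exists_root_one (k : ℕ) (hk1 : 1 ≤ k) : ∃ y, y ≤ 1 ∧ gg k y = 0 := by
  apply exists_root_lt k 1 one_pos
  unfold gg
  rw [sub_self, zero_pow (by omega)]
  have : (0 : ℝ) < (10 - 1) ^ k := by positivity
  linarith

theorem mono_root (j k : ℕ) (hjk : j ≤ k) (x : ℝ) (hx : gg j x = 0) :
    ∃ y, y ≤ x ∧ gg k y = 0 := by
  rcases hjk.eq_or_lt with rfl | hlt
  · exact ⟨x, le_rfl, hx⟩
  by_cases h1 : 1 ≤ x
  · obtain ⟨y, hy, hy2⟩ := exists_root_one k (by omega)
    exact ⟨y, hy.trans h1, hy2⟩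
  · push Not at h1
    have hpos := root_pos j x hx
    apply exists_root_lt k x hpos
    obtain ⟨d, rfl⟩ := Nat.exists_eq_add_of_le hlt.le
    have hd : d ≠ 0 := by omega
    have e : gg (j + d) x = 80 * (1 - x) ^ j * ((10 - x) ^ d - (1 - x) ^ d) := by
      unfold gg at hx ⊢
      rw [pow_add, pow_add]
      linear_combination (10 - x) ^ d * hx
    rw [e]
    have a1 : 0 < (1 - x) ^ j := by apply pow_pos; linarith
    have a2 : (1 - x) ^ d < (10 - x) ^ d := by
      apply pow_lt_pow_left₀ _ _ hd <;> linarith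
    have a3 : 0 < (10 - x) ^ d - (1 - x) ^ d := by linarith
    positivity

theorem leastReal_le {k m : ℕ} (M : Matrix (Fin k) (Fin k) ℝ) (N : Matrix (Fin m) (Fin m) ℝ)
    (h : ∀ x ∈ spectrum ℝ N, ∃ y ∈ spectrum ℝ M, y ≤ x) : leastReal M ≤ leastReal N := by
  unfold leastReal
  apply le_sInf
  rintro _ ⟨x, hx, rfl⟩
  obtain ⟨y, hy, hyx⟩ := h x hx
  exact le_trans (sInf_le (Set.mem_image_of_mem _ hy)) (EReal.coe_le_coe_iff.2 hyx)

theorem leastReal_lt_top {k : ℕ} (M : Matrix (Fin k) (Fin k) ℝ)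
    (h : ∃ y, y ∈ spectrum ℝ M) : leastReal M < ⊤ := by
  obtain ⟨y, hy⟩ := h
  unfold leastReal
  exact lt_of_le_of_lt (sInf_le (Set.mem_image_of_mem _ hy)) (EReal.coe_lt_top y)

theorem spec_G (k : ℕ) (hk : k ≤ 3) (x : ℝ) : x ∈ spectrum ℝ (G k) ↔ gg k x = 0 := by
  rw [mem_spec, det_G k hk, q_iff]

theorem spec_U (k : ℕ) (hk : 0 < k) (x : ℝ) : x ∈ spectrum ℝ (U k) ↔ x = 10 := by
  rw [mem_spec, det_U, pow_eq_zero_iff hk.ne', sub_eq_zero]

theorem spec_nonempty {m : ℕ} (g : Fin m ↪o Fin 4) (hm : 0 < m) :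
    ∃ y, y ∈ spectrum ℝ (principal A g) := by
  have hm4 := card_bound g
  by_cases h3 : (3 : Fin 4) ∈ Set.range g
  · obtain ⟨m', rfl⟩ : ∃ m', m = m' + 1 := ⟨m - 1, by omega⟩
    rw [sub_G g h3]
    rcases Nat.eq_zero_or_pos m' with rfl | hpos
    · exact ⟨80, by rw [spec_G 0 (by norm_num)]; simp [gg]⟩
    · obtain ⟨y, -, hy⟩ := exists_root_one m' hpos
      exact ⟨y, by rw [spec_G m' (by omega)]; exact hy⟩
  · rw [sub_U g h3]
    exact ⟨10, by rw [spec_U m hm]⟩

theorem A_omega : IsOmega A := by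
  intro k m f g hm hsub
  refine ⟨?_, leastReal_lt_top _ (spec_nonempty g hm)⟩
  have hk4 := card_bound f
  have hm4 := card_bound g
  have hmk : m ≤ k := by
    have h1 : (Set.range g).ncard ≤ (Set.range f).ncard := Set.ncard_le_ncard hsub
    rw [← Set.image_univ, ← Set.image_univ, Set.ncard_image_of_injective _ g.injective,
      Set.ncard_image_of_injective _ f.injective] at h1
    simpa using h1
  apply leastReal_le
  intro x hx
  by_cases h3 : (3 : Fin 4) ∈ Set.range f
  · obtain ⟨k', rfl⟩ : ∃ k', k = k' + 1 := ⟨k - 1, by omega⟩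
    rw [sub_G f h3]
    by_cases h3g : (3 : Fin 4) ∈ Set.range g
    · obtain ⟨m', rfl⟩ : ∃ m', m = m' + 1 := ⟨m - 1, by omega⟩
      rw [sub_G g h3g, spec_G m' (by omega)] at hx
      obtain ⟨y, hy1, hy2⟩ := mono_root m' k' (by omega) x hx
      exact ⟨y, by rw [spec_G k' (by omega)]; exact hy2, hy1⟩
    · rw [sub_U g h3g, spec_U m hm] at hx
      subst hx
      have hk' : 1 ≤ k' := by
        by_contra h0
        have h00 : k' = 0 := by omega
        subst h00
        obtain ⟨i, hi⟩ := hsub ⟨⟨0, hm⟩, rfl⟩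
        obtain ⟨j, hj⟩ := h3
        have hij : i = j := Fin.ext (by omega)
        exact h3g ⟨⟨0, hm⟩, by rw [← hi, hij, hj]⟩
      obtain ⟨y, hy1, hy2⟩ := exists_root_one k' hk'
      exact ⟨y, by rw [spec_G k' (by omega)]; exact hy2, by linarith⟩
  · have h3g : (3 : Fin 4) ∉ Set.range g := fun h => h3 (hsub h)
    rw [sub_U g h3g, spec_U m hm] at hx
    rw [sub_U f h3]
    exact ⟨10, by rw [spec_U k (by omega)], by rw [hx]⟩

theorem A_tau : IsTau A := by
  refine ⟨A_omega, ?_⟩
  have hA : A = G 3 := by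
    ext i j
    fin_cases i <;> fin_cases j <;> simp [A, G, Fin.last]
  apply le_sInf
  rintro _ ⟨x, hx, rfl⟩
  rw [hA, spec_G 3 le_rfl] at hx
  exact EReal.coe_nonneg.2 (root_pos 3 x hx).le


/-- The order embeddings into a four-element index set, as strictly monotone maps. -/
theorem coeff_eq (j : ℕ) :
    coeff A j = (((∑ f : {f : Fin j → Fin 4 // StrictMono f}, (B.submatrix f.1 f.1).det : ℤ) : ℝ))
      / ((4 : ℕ).choose j : ℝ) := by
  unfold coeff
  congr 1
  rw [Int.cast_sum]
  refine Fintype.sum_equiv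
    ⟨fun f => ⟨f, f.strictMono⟩, fun f => OrderEmbedding.ofStrictMono f.1 f.2,
      fun f => by ext; rfl, fun f => by ext; rfl⟩ _ _ ?_
  intro f
  exact minor_A f f

theorem sum1 : (∑ f : {f : Fin 1 → Fin 4 // StrictMono f}, (B.submatrix f.1 f.1).det : ℤ) = 110 := by
  simp only [Matrix.det_unique, Matrix.submatrix_apply]
  decide +kernel

theorem sum2 : (∑ f : {f : Fin 2 → Fin 4 // StrictMono f}, (B.submatrix f.1 f.1).det : ℤ) = 540 := by
  simp only [Matrix.det_fin_two, Matrix.submatrix_apply]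
  decide +kernel

theorem sum3 : (∑ f : {f : Fin 3 → Fin 4 // StrictMono f}, (B.submatrix f.1 f.1).det : ℤ) = 1240 := by
  simp only [Matrix.det_fin_three, Matrix.submatrix_apply]
  decide +kernel

/-- Newton's inequalities fail for some GKK tau-matrix; order four suffices. -/
theorem result : ∃ A : Matrix (Fin 4) (Fin 4) ℝ, IsGKK A ∧ IsTau A ∧
    ∃ j : ℕ, 1 ≤ j ∧ j ≤ 4 - 1 ∧ coeff A j ^ 2 < coeff A (j - 1) * coeff A (j + 1) := by
  refine ⟨A, ⟨A_wss, A_pMatrix⟩, A_tau, 2, by norm_num, by norm_num, ?_⟩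
  rw [coeff_eq, coeff_eq, coeff_eq, sum1, sum2, sum3]
  norm_num [Nat.choose]

end Pool.Agent.Results.MP_a5d893_al.Counterexample
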